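import Pool.Agent.W658.KG.Stm
import Pool.Agent.W801.OS.Stm
import Pool.Agent.W801.OS.T_CMP
import Pool.Agent.H974R2.Infinite

/-!
# The odd arm events in the language of the product measure on the edges of `ℤ²`
-/

set_option autoImplicit false

namespace Pool.Agent.W808.TA.Odd

open MeasureTheory H974 H906.Cyl
open Pool.Agent.H160R2.ML (nm)
open Pool.Agent.W801.OU (bxz)
open Pool.Agent.W658.KG (TK tv tp)
open Pool.Agent.W801.OS (T3)
open Pool.Agent.W801.OU.TISO (edz_sum dco_edz edz_eq)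

/-- The square lattice. -/
def Z2 : SimpleGraph (ℤ × ℤ) where
  Adj u v := |u.1 - v.1| + |u.2 - v.2| = 1
  symm := ⟨fun u v h => by rw [abs_sub_comm v.1, abs_sub_comm v.2]; exact h⟩
  loopless := ⟨fun u h => by simp at h⟩

/-- Critical bond percolation. -/
noncomputable def crit : Measure (Z2.edgeSet → Bool) :=
  Measure.infinitePi (fun _ => ProbabilityTheory.bernoulliMeasure true false
    ⟨1/2, by norm_num, by norm_num⟩)

/-- The vertices of the staircase. -/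
def P (j : ℕ) : ℤ × ℤ := ((j / 2 : ℕ), ((j + 1) / 2 : ℕ))

/-- The graph of the open edges inside the box `[-n, n]²`. -/
def openBox (n : ℕ) (ω : Z2.edgeSet → Bool) : SimpleGraph (ℤ × ℤ) :=
  SimpleGraph.fromEdgeSet {e | (∃ h : e ∈ Z2.edgeSet, ω ⟨e, h⟩ = true) ∧
    ∀ v ∈ e, max |v.1| |v.2| ≤ n}

/-- The graph of all the edges of the box, open or closed, which avoid the open clusters of the
vertices `P j`, `j ≤ k`, `j ≠ 1`. -/
def avoid (k n : ℕ) (ω : Z2.edgeSet → Bool) : SimpleGraph (ℤ × ℤ) :=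
  SimpleGraph.fromEdgeSet {e | e ∈ Z2.edgeSet ∧ ∀ v ∈ e, max |v.1| |v.2| ≤ n ∧
    ∀ j : ℕ, j ≤ k → j ≠ 1 → ¬ (openBox n ω).Reachable (P j) v}

/-- `2 k + 1` arms. -/
def OddArms (k n : ℕ) (ω : Z2.edgeSet → Bool) : Prop :=
  (∀ (e : Sym2 (ℤ × ℤ)) (h : e ∈ Z2.edgeSet),
    (e = s((-1, 0), (0, 0)) ∨ ∃ j < k, e = s(P j, P (j + 1))) → ω ⟨e, h⟩ = false) ∧
  (∀ i j : ℕ, i ≤ k → j ≤ k → i ≠ 1 → j ≠ 1 → i ≠ j → ¬ (openBox n ω).Reachable (P i) (P j)) ∧
  (∀ j : ℕ, j ≤ k → j ≠ 1 → ∃ v : ℤ × ℤ, max |v.1| |v.2| = n ∧ (openBox n ω).Reachable (P j) v) ∧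
  (∀ j : ℕ, j ≤ k → j ≠ 1 → ¬ (openBox n ω).Reachable (P j) (P 1)) ∧
  ∃ v : ℤ × ℤ, max |v.1| |v.2| = n ∧ (avoid k n ω).Reachable (P 1) v

theorem mem_bxz (n : ℕ) (e : Edg) : e ∈ bxz n ↔
    (max |(src e).1| |(src e).2| ≤ (n:ℤ) ∧ max |(tgt e).1| |(tgt e).2| ≤ (n:ℤ)) := Iff.rfl

/-- graphs given by sets of edges -/
theorem graph_reach (S : Set (Sym2 (ℤ × ℤ))) (T : Set Edg) (hS : S ⊆ Z2.edgeSet)
    (hST : ∀ e : Edg, s(src e, tgt e) ∈ S ↔ e ∈ T) (u v : ℤ × ℤ) :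
    (SimpleGraph.fromEdgeSet S).Reachable u v ↔ Reach T u v := by
  rw [SimpleGraph.reachable_iff_reflTransGen]
  have : (SimpleGraph.fromEdgeSet S).Adj = H974.Adj T := by
    funext u v
    apply propext
    rw [SimpleGraph.fromEdgeSet_adj]
    constructor
    · rintro ⟨h, -⟩
      obtain ⟨e, he⟩ := adj_edge (show sqLattice.Adj u v from (SimpleGraph.mem_edgeSet _).mp (hS h))
      have hs : s(src e, tgt e) = s(u, v) := by
        rcases he with ⟨h1, h2⟩ | ⟨h1, h2⟩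
        · rw [h1, h2]
        · rw [h1, h2]; exact Sym2.eq_swap
      exact ⟨e, (hST e).1 (hs ▸ h), he⟩
    · rintro ⟨e, he, hcase⟩
      have hs : s(u, v) = s(src e, tgt e) := by
        rcases hcase with ⟨h1, h2⟩ | ⟨h1, h2⟩
        · rw [h1, h2]
        · rw [h1, h2]; exact Sym2.eq_swap
      refine ⟨?_, ?_⟩
      · rw [hs]; exact (hST e).2 he
      · rintro rfl
        exact Adj_irrefl (⟨e, he, hcase⟩ : H974.Adj T u u)
  rw [this]
  rfl

theorem inb2 (n : ℕ) (a b : ℤ × ℤ) : (∀ w ∈ s(a, b), max |w.1| |w.2| ≤ (n:ℤ)) ↔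
    (max |a.1| |a.2| ≤ (n:ℤ) ∧ max |b.1| |b.2| ≤ (n:ℤ)) := by
  constructor
  · intro h; exact ⟨h a (Sym2.mem_mk_left _ _), h b (Sym2.mem_mk_right _ _)⟩
  · rintro ⟨h1, h2⟩ w hw
    rcases Sym2.mem_iff.mp hw with rfl | rfl
    · exact h1
    · exact h2

theorem openBox_reach (n : ℕ) (ω : Z2.edgeSet → Bool) (u v : ℤ × ℤ) :
    (openBox n ω).Reachable u v ↔ Reach ((opn ω) ∩ bxz n) u v := by
  refine graph_reach _ _ (fun e he => he.1.1) (fun e => ?_) u v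
  constructor
  · rintro ⟨⟨h1, h2⟩, h3⟩
    exact ⟨h2, (mem_bxz n e).2 ((inb2 n _ _).1 h3)⟩
  · rintro ⟨h1, h2⟩
    exact ⟨⟨edge_mem e, h1⟩, (inb2 n _ _).2 ((mem_bxz n e).1 h2)⟩

theorem avoid_reach (k n : ℕ) (ω : Z2.edgeSet → Bool) (u v : ℤ × ℤ) :
    (avoid k n ω).Reachable u v ↔ Reach {e | e ∈ bxz n ∧ ∀ j : ℕ, j ≤ k → j ≠ 1 →
      ¬ Reach ((opn ω) ∩ bxz n) (P j) (src e) ∧ ¬ Reach ((opn ω) ∩ bxz n) (P j) (tgt e)} u v := by
  refine graph_reach _ _ (fun e he => he.1) (fun e => ?_) u v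
  constructor
  · rintro ⟨h1, h2⟩
    have a1 := h2 _ (Sym2.mem_mk_left _ _)
    have a2 := h2 _ (Sym2.mem_mk_right _ _)
    refine ⟨⟨a1.1, a2.1⟩, fun j hj hj1 => ⟨?_, ?_⟩⟩
    · rw [← openBox_reach]; exact a1.2 j hj hj1
    · rw [← openBox_reach]; exact a2.2 j hj hj1
  · rintro ⟨h1, h2⟩
    refine ⟨edge_mem e, fun w hw => ?_⟩
    rcases Sym2.mem_iff.mp hw with rfl | rfl
    · refine ⟨h1.1, fun j hj hj1 => ?_⟩
      rw [openBox_reach]; exact (h2 j hj hj1).1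
    · refine ⟨h1.2, fun j hj hj1 => ?_⟩
      rw [openBox_reach]; exact (h2 j hj hj1).2

/-- the tips -/
theorem tv_lo {k i : ℕ} (h : 2 * i ≤ k) : tv k i = P (2 * i) := by
  unfold tv tp Pool.Agent.W808.KY.scy P
  rw [if_pos (by omega)]
  simp only [Prod.mk.injEq]
  push_cast
  constructor <;> omega

theorem tv_hi {k i : ℕ} (h : k < 2 * i) (hi : i < k) : tv k i = P (2 * (k - i) + 1) := by
  unfold tv tp Pool.Agent.W808.KY.scy P
  rw [if_neg (by omega)]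
  simp only [Prod.mk.injEq]
  push_cast [Nat.cast_sub hi.le]
  constructor <;> omega

/-- every vertex of the staircase except the number `1` is a tip -/
theorem tv_surj {k j : ℕ} (h : j ≤ k) (h1 : j ≠ 1) (hk : 1 ≤ k) : ∃ i < k, tv k i = P j := by
  rcases Nat.even_or_odd' j with ⟨c, rfl | rfl⟩
  · refine ⟨c, by omega, tv_lo h⟩
  · refine ⟨k - c, by omega, ?_⟩
    rw [tv_hi (by omega) (by omega)]
    congr 1
    omega

theorem tv_ne {k i : ℕ} (hi : i < k) : ∃ j ≤ k, j ≠ 1 ∧ tv k i = P j := by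
  rcases Nat.lt_or_ge k (2 * i) with h | h
  · exact ⟨2 * (k - i) + 1, by omega, by omega, tv_hi h hi⟩
  · exact ⟨2 * i, h, by omega, tv_lo h⟩

theorem P_inj {i j : ℕ} (h : P i = P j) : i = j := by
  unfold P at h
  simp only [Prod.mk.injEq, Nat.cast_inj] at h
  omega

theorem tv_inj {k i j : ℕ} (hi : i < k) (hj : j < k) (h : tv k i = tv k j) : i = j := by
  rcases Nat.lt_or_ge k (2 * i) with a | a <;> rcases Nat.lt_or_ge k (2 * j) with b | b
  · rw [tv_hi a hi, tv_hi b hj] at h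
    have := P_inj h
    omega
  · rw [tv_hi a hi, tv_lo b] at h
    have := P_inj h
    omega
  · rw [tv_lo a, tv_hi b hj] at h
    have := P_inj h
    omega
  · rw [tv_lo a, tv_lo b] at h
    have := P_inj h
    omega

/-- the closed edges -/
theorem edz_P (s : ℕ) : s(src (edz s (-1)), tgt (edz s (-1))) = s(P s, P (s + 1)) := by
  unfold edz
  rcases Nat.even_or_odd' s with ⟨c, rfl | rfl⟩
  · rw [if_neg (by push_cast; omega), src_mk, tgt_false]
    have h1 : P (2 * c) = ((c : ℤ), (c : ℤ)) := by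
      unfold P
      simp only [Prod.mk.injEq, Nat.cast_inj]
      omega
    have h2 : P (2 * c + 1) = ((c : ℤ), (c : ℤ) + 1) := by
      unfold P
      simp only [Prod.mk.injEq]
      push_cast
      omega
    rw [h1, h2]
    push_cast
    have e1 : (2 * (c:ℤ) + -1 + 1) / 2 = c := by omega
    have e2 : (2 * (c:ℤ) - -1 - 1) / 2 = c := by omega
    rw [e1, e2]
  · rw [if_pos (by push_cast; omega), src_mk, tgt_true]
    have h1 : P (2 * c + 1) = ((c : ℤ), (c : ℤ) + 1) := by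
      unfold P
      simp only [Prod.mk.injEq]
      push_cast
      omega
    have h2 : P (2 * c + 1 + 1) = ((c : ℤ) + 1, (c : ℤ) + 1) := by
      unfold P
      simp only [Prod.mk.injEq]
      push_cast
      omega
    rw [h1, h2]
    push_cast
    have e1 : (2 * (c:ℤ) + 1 + -1) / 2 = c := by omega
    have e2 : (2 * (c:ℤ) + 1 - -1) / 2 = c + 1 := by omega
    rw [e1, e2]

theorem edz_m : s(src (edz (-1) (-1)), tgt (edz (-1) (-1))) = s(((-1 : ℤ), (0 : ℤ)), ((0 : ℤ), (0 : ℤ))) := by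
  unfold edz
  rw [if_pos (by norm_num), src_mk, tgt_true]
  norm_num

theorem closed_of {k n : ℕ} {ω : Z2.edgeSet → Bool} (h : OddArms k n ω) {s : ℤ} (h1 : -1 ≤ s)
    (h2 : s < k) : edz s (-1) ∉ opn ω := by
  intro hc
  have hc' : ω ⟨s(src (edz s (-1)), tgt (edz s (-1))), edge_mem _⟩ = true := hc
  have := h.1 _ (edge_mem (edz s (-1))) (by
    rcases eq_or_lt_of_le h1 with h3 | h3
    · left; rw [← h3]; exact edz_m
    · right
      obtain ⟨j, rfl⟩ := Int.eq_ofNat_of_zero_le (show 0 ≤ s by omega)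
      exact ⟨j, by exact_mod_cast h2, edz_P j⟩)
  rw [this] at hc'
  exact Bool.false_ne_true hc'

theorem odd_TK {k n : ℕ} {ω : Z2.edgeSet → Bool} (h : OddArms k n ω) {F : Set Edg}
    (h1 : F ⊆ opn ω) (h2 : F ∩ bxz n = opn ω ∩ bxz n) : TK k n F := by
  unfold TK
  rw [h2]
  refine ⟨fun s h3 h4 hc => closed_of h h3 h4 (h1 hc), fun i j hi hj hij hr => ?_,
    fun i hi => ?_, ?_⟩
  · obtain ⟨a, ha, ha1, ea⟩ := tv_ne hi
    obtain ⟨b, hb, hb1, eb⟩ := tv_ne hj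
    rw [ea, eb, ← openBox_reach] at hr
    refine h.2.1 a b ha hb ha1 hb1 ?_ hr
    rintro rfl
    exact hij (tv_inj hi hj (ea.trans eb.symm))
  · obtain ⟨a, ha, ha1, ea⟩ := tv_ne hi
    obtain ⟨v, hv, hr⟩ := h.2.2.1 a ha ha1
    refine ⟨v, hv, ?_⟩
    rw [ea, ← openBox_reach]
    exact hr
  · obtain ⟨v, hv, hr⟩ := h.2.2.2.2
    have e1 : P 1 = ((0 : ℤ), (1 : ℤ)) := by unfold P; norm_num
    refine ⟨v, hv, fun i hi hr' => ?_, ?_⟩
    · obtain ⟨a, ha, ha1, ea⟩ := tv_ne hi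
      rw [ea, ← e1, ← openBox_reach] at hr'
      exact h.2.2.2.1 a ha ha1 hr'
    · rw [avoid_reach, e1] at hr
      refine Reach.mono (fun e he => ?_) hr
      refine ⟨he.1, fun i hi => ?_⟩
      obtain ⟨a, ha, ha1, ea⟩ := tv_ne hi
      rw [ea]
      exact he.2 a ha ha1

theorem odd_T3 {n : ℕ} {ω : Z2.edgeSet → Bool} (h : OddArms 1 n ω) {F : Set Edg}
    (h1 : F ⊆ opn ω) (h2 : F ∩ bxz n = opn ω ∩ bxz n) : T3 n F := by
  have h3 := odd_TK h h1 h2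
  have e0 : tv 1 0 = ((0 : ℤ), (0 : ℤ)) := by
    rw [tv_lo (by norm_num)]; unfold P; norm_num
  have c1 : edz 0 (-1) = (((0 : ℤ), (0 : ℤ), false) : Edg) := by
    unfold edz
    rw [if_neg (by norm_num)]
    norm_num
  have c2 : edz (-1) (-1) = (((-1 : ℤ), (0 : ℤ), true) : Edg) := by
    unfold edz
    rw [if_pos (by norm_num)]
    norm_num
  obtain ⟨a, b, c, q, hq, d, e⟩ := h3
  refine ⟨⟨?_, ?_⟩, ?_, (0, 1), q, Or.inl rfl, hq, ?_, ?_⟩
  · rw [← c1]; exact a 0 (by norm_num) (by norm_num)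
  · rw [← c2]; exact a (-1) (by norm_num) (by norm_num)
  · obtain ⟨v, hv, hr⟩ := c 0 (by norm_num)
    rw [e0] at hr
    exact ⟨v, hv, hr⟩
  · have := d 0 (by norm_num)
    rw [e0] at this
    exact this
  · refine Reach.mono (fun x hx => ?_) e
    have := hx.2 0 (by norm_num)
    rw [e0] at this
    exact ⟨hx.1, this.1, this.2⟩

theorem ff_sub (n : ℕ) (ω : sqLattice.edgeSet → Bool) :
    (↑(FF (boxE n) ω) : Set Edg) ⊆ opn ω := by
  rw [FF_coe]; exact Set.inter_subset_left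

theorem ff_inter (n : ℕ) (ω : sqLattice.edgeSet → Bool) :
    (↑(FF (boxE n) ω) : Set Edg) ∩ bxz n = opn ω ∩ bxz n := by
  rw [FF_coe]
  ext e
  constructor
  · rintro ⟨⟨a, -⟩, b⟩; exact ⟨a, b⟩
  · rintro ⟨a, b⟩
    refine ⟨⟨a, ?_⟩, b⟩
    rw [Finset.mem_coe]
    exact Pool.Agent.W801.OS.TCMP.bxz_iff.1 b

/-- the probability of the arm event is at most that of an event of the finite box -/
theorem law_le (n : ℕ) {A : (Z2.edgeSet → Bool) → Prop} {Q : Finset Edg → Prop}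
    (h : ∀ ω, A ω → Q (FF (boxE n) ω)) :
    crit.real {ω | A ω} ≤ Pr (fun _ => (1 / 2 : ℝ)) (boxE n) Q := by
  have h1 : (bondLaw hlf).real {ω | Q (FF (boxE n) ω)} = Pr (fun _ => (1 / 2 : ℝ)) (boxE n) Q := by
    have := law_event hlf (boxE n) Q
    rw [this]
    rfl
  rw [← h1]
  show (bondLaw hlf).real {ω | A ω} ≤ _
  exact measureReal_mono (fun ω hω => h ω hω) (measure_ne_top _ _)

theorem law_TK {k n : ℕ} : crit.real {ω | OddArms k n ω} ≤
    Pr (fun _ => (1 / 2 : ℝ)) (boxE n) (fun F => TK k n (↑F : Set Edg)) :=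
  law_le n (fun ω hω => odd_TK hω (ff_sub n ω) (ff_inter n ω))

theorem law_T3 {n : ℕ} : crit.real {ω | OddArms 1 n ω} ≤
    Pr (fun _ => (1 / 2 : ℝ)) (boxE n) (fun F => T3 n (↑F : Set Edg)) :=
  law_le n (fun ω hω => odd_T3 hω (ff_sub n ω) (ff_inter n ω))

/-- **the final statement**, from the two bounds -/
theorem fin (h1 : ∃ C : ℝ, 0 < C ∧ ∀ R : ℕ, 1 ≤ R →
      Pr (fun _ => (1 / 2 : ℝ)) (boxE R) (fun F => T3 R (↑F : Set Edg)) ≤
        C * (R : ℝ) ^ (-(2 / 3 : ℝ))) (h2 : Pool.Agent.W658.KG.S_HON) (k : ℕ) (hk : 1 ≤ k) :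
    ∃ C : ℝ, 0 < C ∧ ∀ n : ℕ, 1 ≤ n → crit.real {ω | OddArms k n ω} ≤
      C * (n : ℝ) ^ (-((2 * (k : ℝ) + 1) ^ 2 - 1) / 12) := by
  have e : (-((2 * (k : ℝ) + 1) ^ 2 - 1) / 12) = -((k : ℝ) * (k + 1) / 3) := by ring
  rw [e]
  rcases eq_or_lt_of_le hk with h | h
  · subst h
    obtain ⟨C, hC, h⟩ := h1
    refine ⟨C, hC, fun n hn => law_T3.trans ((h n hn).trans_eq ?_)⟩
    norm_num
  · obtain ⟨C, hC, h⟩ := h2 k h
    exact ⟨C, hC, fun n hn => law_TK.trans (h n hn)⟩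

end Pool.Agent.W808.TA.Odd
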