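import Pool.Agent.W808.TA.Wrap
import Pool.Agent.W808.TA.Odd
import Pool.Agent.W658.KT.Stm

/-!
# Odd numbers of arms in annuli in the language of the product measure on the edges of `ℤ²`
-/

set_option autoImplicit false

namespace Pool.Agent.W808.TA

open MeasureTheory H974 H12S
open Pool.Agent.H160R2.ML (nm)
open Pool.Agent.W801.OU (bxz)
open Pool.Agent.W658.KT (AK)
open Pool.Agent.W424.OD (A3v AE)

/-- `2 k + 1` arms in the annulus. -/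
def ArmsA (k d n : ℕ) (ω : Z2.edgeSet → Bool) : Prop :=
  ∃ (u : Fin k → ℤ × ℤ) (x y : ℤ × ℤ),
    (∀ i, max |(u i).1| |(u i).2| = d ∧
      ∃ w : ℤ × ℤ, max |w.1| |w.2| = n ∧ (openAnn d n ω).Reachable (u i) w) ∧
    (∀ i j, i ≠ j → ¬ (openAnn d n ω).Reachable (u i) (u j)) ∧
    max |x.1| |x.2| = d ∧ max |y.1| |y.2| = n ∧
    (∀ i, ¬ (openAnn d n ω).Reachable (u i) x) ∧
    (avoid d n {v | ∃ i, (openAnn d n ω).Reachable (u i) v}).Reachable x y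

theorem ae_eq (d n : ℕ) : AE (0, 0) d n = bxz (n : ℤ) \ bxz (d : ℤ) := by
  ext e
  unfold AE
  rw [Finset.coe_sdiff]
  show (e ∈ (↑(blk (0, 0) n) : Set Edg) ∧ e ∉ (↑(blk (0, 0) d) : Set Edg)) ↔
    (e ∈ bxz (n : ℤ) ∧ e ∉ bxz (d : ℤ))
  rw [Finset.mem_coe, Finset.mem_coe, inbox, inbox, Odd.mem_bxz, Odd.mem_bxz]

theorem openAnn_reach' (d n : ℕ) (ω : Z2.edgeSet → Bool) (u v : ℤ × ℤ) :
    (openAnn d n ω).Reachable u v ↔ Reach ((opn ω) ∩ (bxz (n : ℤ) \ bxz (d : ℤ))) u v := by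
  rw [openAnn_reach, ae_eq]

theorem avoid_reach' (d n : ℕ) (C : Set (ℤ × ℤ)) (u v : ℤ × ℤ) :
    (avoid d n C).Reachable u v ↔
      Reach {e | e ∈ bxz (n : ℤ) \ bxz (d : ℤ) ∧ src e ∉ C ∧ tgt e ∉ C} u v := by
  rw [avoid_reach, ae_eq]

theorem arms_AK {k d n : ℕ} {ω : Z2.edgeSet → Bool} (h : ArmsA k d n ω) {F : Set Edg}
    (h2 : F ∩ (bxz (n : ℤ) \ bxz (d : ℤ)) = opn ω ∩ (bxz (n : ℤ) \ bxz (d : ℤ))) : AK k d n F := by
  obtain ⟨u, x, y, hu, hij, hx, hy, hux, hr⟩ := h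
  have key : ∀ i (hi : i < k), (if h : i < k then u ⟨i, h⟩ else (0, 0)) = u ⟨i, hi⟩ :=
    fun i hi => dif_pos hi
  refine ⟨fun i => if h : i < k then u ⟨i, h⟩ else (0, 0), x, y, fun i hi => ?_,
    fun i j hi hj hne hr' => ?_, hx, hy, fun i hi hr' => ?_, ?_⟩
  · simp only [key i hi]
    obtain ⟨h3, w, h4, h5⟩ := hu ⟨i, hi⟩
    rw [openAnn_reach'] at h5
    refine ⟨h3, w, h4, ?_⟩
    rw [h2]; exact h5
  · simp only [key i hi, key j hj] at hr'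
    rw [h2, ← openAnn_reach'] at hr'
    exact hij ⟨i, hi⟩ ⟨j, hj⟩ (fun h => hne (congrArg Fin.val h)) hr'
  · simp only [key i hi] at hr'
    rw [h2, ← openAnn_reach'] at hr'
    exact hux ⟨i, hi⟩ hr'
  · rw [avoid_reach'] at hr
    refine Reach.mono (fun e he => ?_) hr
    refine ⟨he.1, fun i hi => ?_⟩
    simp only [key i hi]
    rw [h2]
    refine ⟨fun hc => he.2.1 ⟨⟨i, hi⟩, ?_⟩, fun hc => he.2.2 ⟨⟨i, hi⟩, ?_⟩⟩ <;>
    · rw [openAnn_reach']; exact hc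

theorem ff_ann (d n : ℕ) (ω : sqLattice.edgeSet → Bool) :
    (↑(FF (boxE n) ω) : Set Edg) ∩ (bxz (n : ℤ) \ bxz (d : ℤ)) =
      opn ω ∩ (bxz (n : ℤ) \ bxz (d : ℤ)) := by
  have h := Odd.ff_inter n ω
  ext e
  have he : (e ∈ (↑(FF (boxE n) ω) : Set Edg) ∩ bxz n) ↔ (e ∈ opn ω ∩ bxz n) := by rw [h]
  constructor
  · rintro ⟨a, b, c⟩
    exact ⟨(he.1 ⟨a, b⟩).1, b, c⟩
  · rintro ⟨a, b, c⟩
    exact ⟨(he.2 ⟨a, b⟩).1, b, c⟩

theorem law_AK (k d n : ℕ) : crit.real {ω | ArmsA k d n ω} ≤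
    Pr (fun _ => (1 / 2 : ℝ)) (boxE n) (fun F => AK k d n (↑F : Set Edg)) :=
  Odd.law_le n (fun ω hω => arms_AK hω (ff_ann d n ω))

theorem arms_three {d n : ℕ} {ω : Z2.edgeSet → Bool} (h : ArmsA 1 d n ω) : ThreeArms d n ω := by
  obtain ⟨u, x, y, hu, hij, hx, hy, hux, hr⟩ := h
  obtain ⟨h3, w, h4, h5⟩ := hu 0
  refine ⟨u 0, h3, ⟨w, h4, h5⟩, x, y, hx, hy, ?_⟩
  have : {v | ∃ i, (openAnn d n ω).Reachable (u i) v} = {v | (openAnn d n ω).Reachable (u 0) v} := by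
    ext v
    constructor
    · rintro ⟨i, hi⟩
      rw [Subsingleton.elim i 0] at hi
      exact hi
    · intro hi
      exact ⟨0, hi⟩
  rw [this] at hr
  exact hr

/-- **the final statement**, from the bounds -/
theorem finA (h1 : Pool.Agent.W424.OD.U3) (h2 : Pool.Agent.W658.KT.S_ANN) (k d : ℕ) (hk : 1 ≤ k)
    (hd : 1 ≤ d) : ∃ C : ℝ, 0 < C ∧ ∀ n : ℕ, d ≤ n → crit.real {ω | ArmsA k d n ω} ≤
      C * (n : ℝ) ^ (-((2 * (k : ℝ) + 1) ^ 2 - 1) / 12) := by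
  have e : (-((2 * (k : ℝ) + 1) ^ 2 - 1) / 12) = -((k : ℝ) * (k + 1) / 3) := by ring
  rw [e]
  rcases eq_or_lt_of_le hk with h | h
  · subst h
    obtain ⟨C, hC, h⟩ := h1
    have hd0 : (0 : ℝ) < d := by exact_mod_cast hd
    refine ⟨C * (d : ℝ) ^ (2 / 3 : ℝ), by positivity, fun n hn => ?_⟩
    have hn0 : (0 : ℝ) < n := by exact_mod_cast (lt_of_lt_of_le hd hn)
    have h3 : crit.real {ω | ArmsA 1 d n ω} ≤ crit.real {ω | ThreeArms d n ω} := by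
      show (bondLaw hlf).real {ω | ArmsA 1 d n ω} ≤ (bondLaw hlf).real {ω | ThreeArms d n ω}
      exact measureReal_mono (fun ω hω => arms_three hω) (measure_ne_top _ _)
    have h4 := h (0, 0) d n hd hn _ (Finset.Subset.refl _)
    rw [← law_three] at h4
    refine h3.trans (h4.trans_eq ?_)
    have e2 : (-(((1 : ℕ) : ℝ) * (((1 : ℕ) : ℝ) + 1) / 3)) = -(2 / 3 : ℝ) := by norm_num
    rw [e2, Real.div_rpow hd0.le hn0.le, Real.rpow_neg hn0.le]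
    ring
  · obtain ⟨C, hC, h⟩ := h2 k d h hd
    exact ⟨C, hC, fun n hn => (law_AK k d n).trans (h n (hd.trans hn))⟩

end Pool.Agent.W808.TA
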