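import Pool.Agent.W424.OD.Defs
import Pool.Agent.H974R2.Infinite
import Pool.Agent.H12R2.Sep.BlkSum

/-!
# The three arm event of an annulus in the language of the product measure on the edges of `ℤ²`
-/

set_option autoImplicit false

namespace Pool.Agent.W808.TA

open MeasureTheory H974 H12S
open Pool.Agent.W424.OD (A3v AE)

/-- The square lattice. -/
def Z2 : SimpleGraph (ℤ × ℤ) where
  Adj u v := |u.1 - v.1| + |u.2 - v.2| = 1
  symm := ⟨fun u v h => by rw [abs_sub_comm v.1, abs_sub_comm v.2]; exact h⟩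
  loopless := ⟨fun u h => by simp at h⟩

/-- Critical bond percolation. -/
noncomputable def crit : Measure (Z2.edgeSet → Bool) :=
  Measure.infinitePi (fun _ => ProbabilityTheory.bernoulliMeasure true false
    ⟨1/2, by norm_num, by norm_num⟩)

/-- The edges of the annulus: both ends in the box `[-n, n]²`, not both in the box `[-d, d]²`. -/
def ann (d n : ℕ) : Set (Sym2 (ℤ × ℤ)) :=
  {e | e ∈ Z2.edgeSet ∧ (∀ v ∈ e, max |v.1| |v.2| ≤ n) ∧ ∃ v ∈ e, (d : ℤ) < max |v.1| |v.2|}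

/-- The graph of the open edges of the annulus. -/
def openAnn (d n : ℕ) (ω : Z2.edgeSet → Bool) : SimpleGraph (ℤ × ℤ) :=
  SimpleGraph.fromEdgeSet {e | e ∈ ann d n ∧ ∃ h : e ∈ Z2.edgeSet, ω ⟨e, h⟩ = true}

/-- The graph of all the edges of the annulus, open or closed, both ends of which avoid `C`. -/
def avoid (d n : ℕ) (C : Set (ℤ × ℤ)) : SimpleGraph (ℤ × ℤ) :=
  SimpleGraph.fromEdgeSet {e | e ∈ ann d n ∧ ∀ v ∈ e, v ∉ C}

/-- Three arms. -/
def ThreeArms (d n : ℕ) (ω : Z2.edgeSet → Bool) : Prop :=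
  ∃ u : ℤ × ℤ, max |u.1| |u.2| = d ∧
    (∃ w : ℤ × ℤ, max |w.1| |w.2| = n ∧ (openAnn d n ω).Reachable u w) ∧
    ∃ x y : ℤ × ℤ, max |x.1| |x.2| = d ∧ max |y.1| |y.2| = n ∧
      (avoid d n {v | (openAnn d n ω).Reachable u v}).Reachable x y

theorem inbox (n : ℕ) (e : Edg) : e ∈ blk (0, 0) n ↔
    (max |(src e).1| |(src e).2| ≤ (n:ℤ) ∧ max |(tgt e).1| |(tgt e).2| ≤ (n:ℤ)) := by
  unfold blk
  simp only [zero_sub, zero_add]
  obtain ⟨x, y, _ | _⟩ := e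
  · rw [mem_RE_false, src_mk, tgt_false]
    simp only [max_le_iff, abs_le]
    omega
  · rw [mem_RE_true, src_mk, tgt_true]
    simp only [max_le_iff, abs_le]
    omega

theorem mem_bdB (n : ℕ) (w : ℤ × ℤ) : w ∈ bdB (0, 0) n ↔ max |w.1| |w.2| = n := by
  obtain ⟨x, y⟩ := w
  show (|x - 0| ≤ (n : ℤ) ∧ |y - 0| ≤ (n : ℤ) ∧ (|x - 0| = (n : ℤ) ∨ |y - 0| = (n : ℤ))) ↔
    max |x| |y| = (n:ℤ)
  simp only [sub_zero]
  rcases max_cases |x| |y| with ⟨h, h'⟩ | ⟨h, h'⟩ <;> omega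

theorem ann_iff (d n : ℕ) (e : Edg) : s(src e, tgt e) ∈ ann d n ↔ e ∈ AE (0, 0) d n := by
  have hZ : s(src e, tgt e) ∈ Z2.edgeSet := edge_mem e
  have h1 : (∀ v ∈ s(src e, tgt e), max |v.1| |v.2| ≤ (n:ℤ)) ↔ e ∈ blk (0, 0) n := by
    rw [inbox]
    constructor
    · intro h
      exact ⟨h _ (Sym2.mem_mk_left _ _), h _ (Sym2.mem_mk_right _ _)⟩
    · rintro ⟨h1, h2⟩ v hv
      rcases Sym2.mem_iff.mp hv with rfl | rfl
      · exact h1
      · exact h2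
  have h2 : (∃ v ∈ s(src e, tgt e), (d : ℤ) < max |v.1| |v.2|) ↔ e ∉ blk (0, 0) d := by
    rw [inbox]
    constructor
    · rintro ⟨v, hv, h⟩ ⟨h3, h4⟩
      rcases Sym2.mem_iff.mp hv with rfl | rfl
      · omega
      · omega
    · intro h
      by_contra h3
      push Not at h3
      exact h ⟨h3 _ (Sym2.mem_mk_left _ _), h3 _ (Sym2.mem_mk_right _ _)⟩
  unfold ann AE
  rw [Finset.coe_sdiff]
  show (_ ∧ _ ∧ _) ↔ (e ∈ (↑(blk (0, 0) n) : Set Edg) ∧ e ∉ (↑(blk (0, 0) d) : Set Edg))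
  rw [h1, h2, Finset.mem_coe, Finset.mem_coe]
  exact ⟨fun h => h.2, fun h => ⟨hZ, h⟩⟩

/-- graphs given by sets of edges -/
theorem graph_reach (S : Set (Sym2 (ℤ × ℤ))) (T : Set Edg) (hS : S ⊆ Z2.edgeSet)
    (hST : ∀ e : Edg, s(src e, tgt e) ∈ S ↔ e ∈ T) (u v : ℤ × ℤ) :
    (SimpleGraph.fromEdgeSet S).Reachable u v ↔ Reach T u v := by
  rw [SimpleGraph.reachable_iff_reflTransGen]
  have : (SimpleGraph.fromEdgeSet S).Adj = H974.Adj T := by
    funext u v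
    apply propext
    rw [SimpleGraph.fromEdgeSet_adj]
    constructor
    · rintro ⟨h, -⟩
      obtain ⟨e, he⟩ := adj_edge (show sqLattice.Adj u v from (SimpleGraph.mem_edgeSet _).mp (hS h))
      have hs : s(src e, tgt e) = s(u, v) := by
        rcases he with ⟨h1, h2⟩ | ⟨h1, h2⟩
        · rw [h1, h2]
        · rw [h1, h2]; exact Sym2.eq_swap
      exact ⟨e, (hST e).1 (hs ▸ h), he⟩
    · rintro ⟨e, he, hcase⟩
      have hs : s(u, v) = s(src e, tgt e) := by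
        rcases hcase with ⟨h1, h2⟩ | ⟨h1, h2⟩
        · rw [h1, h2]
        · rw [h1, h2]; exact Sym2.eq_swap
      refine ⟨?_, ?_⟩
      · rw [hs]; exact (hST e).2 he
      · rintro rfl
        exact Adj_irrefl (⟨e, he, hcase⟩ : H974.Adj T u u)
  rw [this]
  rfl

theorem openAnn_reach (d n : ℕ) (ω : Z2.edgeSet → Bool) (u v : ℤ × ℤ) :
    (openAnn d n ω).Reachable u v ↔ Reach ((opn ω) ∩ AE (0, 0) d n) u v := by
  refine graph_reach _ _ (fun e he => he.1.1) (fun e => ?_) u v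
  constructor
  · rintro ⟨h1, h2, h3⟩
    exact ⟨h3, (ann_iff d n e).1 h1⟩
  · rintro ⟨h1, h2⟩
    exact ⟨(ann_iff d n e).2 h2, edge_mem e, h1⟩

theorem avoid_reach (d n : ℕ) (C : Set (ℤ × ℤ)) (u v : ℤ × ℤ) :
    (avoid d n C).Reachable u v ↔
      Reach {e | e ∈ AE (0, 0) d n ∧ src e ∉ C ∧ tgt e ∉ C} u v := by
  refine graph_reach _ _ (fun e he => he.1.1) (fun e => ?_) u v
  constructor
  · rintro ⟨h1, h2⟩
    exact ⟨(ann_iff d n e).1 h1, h2 _ (Sym2.mem_mk_left _ _), h2 _ (Sym2.mem_mk_right _ _)⟩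
  · rintro ⟨h1, h2, h3⟩
    refine ⟨(ann_iff d n e).2 h1, fun w hw => ?_⟩
    rcases Sym2.mem_iff.mp hw with rfl | rfl
    · exact h2
    · exact h3

theorem three_iff (d n : ℕ) (ω : Z2.edgeSet → Bool) :
    ThreeArms d n ω ↔ A3v (0, 0) d n (opn ω) := by
  unfold ThreeArms A3v Pool.Agent.W424.OD.Cl
  simp only [openAnn_reach, avoid_reach, mem_bdB]
  constructor
  · rintro ⟨u, hu, ⟨w, hw, h1⟩, x, y, hx, hy, h2⟩
    exact ⟨u, hu, ⟨w, hw, h1⟩, x, hx, y, hy, h2⟩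
  · rintro ⟨u, hu, ⟨w, hw, h1⟩, x, hx, y, hy, h2⟩
    exact ⟨u, hu, ⟨w, hw, h1⟩, x, y, hx, hy, h2⟩

theorem a3v_local (d n : ℕ) (F : Set Edg) :
    A3v (0, 0) d n F ↔ A3v (0, 0) d n (F ∩ ↑(blk (0, 0) n)) := by
  have h : F ∩ ↑(blk (0, 0) n) ∩ AE (0, 0) d n = F ∩ AE (0, 0) d n := by
    have : AE (0, 0) d n ⊆ ↑(blk (0, 0) n) := by
      unfold AE
      rw [Finset.coe_sdiff]
      exact Set.diff_subset
    rw [Set.inter_assoc, Set.inter_eq_right.2 this]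
  unfold A3v Pool.Agent.W424.OD.Cl
  rw [h]

/-- **the probability of the three arm event** -/
theorem law_three (d n : ℕ) : crit.real {ω | ThreeArms d n ω} =
    PQ (1/2) (blk (0, 0) n) (fun F => A3v (0, 0) d n (↑F : Set Edg)) := by
  have h : {ω : sqLattice.edgeSet → Bool | A3v (0, 0) d n (opn ω)} =
      {ω | (fun F : Finset Edg => A3v (0, 0) d n (↑F : Set Edg)) (FF (blk (0, 0) n) ω)} := by
    ext ω
    show A3v (0, 0) d n (opn ω) ↔ A3v (0, 0) d n (↑(FF (blk (0, 0) n) ω) : Set Edg)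
    rw [FF_coe]
    exact a3v_local d n (opn ω)
  have h2 : {ω | ThreeArms d n ω} = {ω | A3v (0, 0) d n (opn ω)} := by
    ext ω
    exact three_iff d n ω
  rw [h2]
  show (bondLaw hlf).real {ω | A3v (0, 0) d n (opn ω)} = _
  rw [h]
  exact law_event hlf (blk (0, 0) n) (fun F : Finset Edg => A3v (0, 0) d n (↑F : Set Edg))

end Pool.Agent.W808.TA
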